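import Pool.Agent.Q322.CC.PolyC

/-!
# `P_4`-Free Contraction (Cograph Contraction) is fixed-parameter tractable

Instances are pairs `(M, k)`, where the 0/1 matrix `M` gives the graph `graphOf M`. The question is
whether at most `k` edges of the graph can be contracted so that the result has no induced path on
four vertices. The parameter is `k`.
-/

namespace Pool.Agent.Results.MP_7f80d9_lc.CographContractionFPT

open Pool.Agent.H633R2

/-- `P_4`-Free Contraction is fixed-parameter tractable with parameter `k`. -/
theorem result : IsFpt (fun x : List (List Bool) × ℕ => x.2)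
    (FreeContraction (SimpleGraph.pathGraph 4)) := by
  obtain ⟨d, h1, h2⟩ := Pool.Agent.NPC.H633.isFpt_sol4
  exact ⟨d, h1, fun x => (h2 x).trans (Pool.Agent.Q322.CC.sol4_iff x)⟩

end Pool.Agent.Results.MP_7f80d9_lc.CographContractionFPT
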